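import Pool.Agent.W399.WP.Stm

/-!
# Few blocks between references at bounded distance
-/

set_option autoImplicit false

namespace Pool.Agent.W589.WP399

open Pool.Agent.W399.WP

section
variable {M : Type} [CancelMonoid M] {A : Type} (φ : A → M)

theorem bw_append (T L : List (Blk A)) : bw (T ++ L) = bw L ++ bw T := by
  simp [bw]

theorem bw_cons (B : Blk A) (L : List (Blk A)) : bw (B :: L) = bw L ++ B.1 := by
  simp [bw]

theorem bw_nil : bw ([] : List (Blk A)) = [] := rfl

theorem good_drop {ρ : ℕ} : ∀ (T L : List (Blk A)), Good φ ρ (T ++ L) → Good φ ρ L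
  | [], _, h => h
  | _ :: T, L, h => good_drop T L h.1

theorem nrm_one : nrm φ (1 : M) = 0 := by
  have := nrm_le φ ([] : List A)
  simpa using this

/-- a nonempty segment with a nonempty stack below does not have the value `1` -/
theorem seg_ne_one {ρ : ℕ} (T L : List (Blk A)) (hT : T ≠ []) (hL : L ≠ [])
    (h : Good φ ρ (T ++ L)) (h1 : pr φ (bw T) = 1) : False := by
  obtain ⟨B, T', rfl⟩ := List.exists_cons_of_ne_nil hT
  rw [List.cons_append] at h
  obtain ⟨hg, hgeo, hlen, hval, hne, hall⟩ := h
  rw [bw_cons, pr_append, hval] at h1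
  rcases List.eq_nil_or_concat T' with rfl | ⟨_, _, hT'⟩
  · obtain ⟨B₀, L', rfl⟩ := List.exists_cons_of_ne_nil hL
    have h2 := hall 1 B.2 le_rfl (by simp) hne (List.prefix_refl _)
    obtain ⟨_, _, hlen', _⟩ := hg
    rw [bw_nil, pr_nil, one_mul] at h1
    rw [h1, List.nil_append, List.take_succ_cons, List.take_zero, mul_one, bw_cons, bw_nil,
      List.nil_append] at h2
    have h3 := nrm_le φ B₀.1
    omega
  · have hT'ne : 1 ≤ T'.length := by
      rw [hT']; simp
    have h2 := hall T'.length B.2 hT'ne (by simp) hne (List.prefix_refl _)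
    rw [List.take_left, h1, nrm_one] at h2
    omega

end

theorem cnt : S_CNT := by
  intro M _ A _ φ hs D ρ Dp hρ hK F hF
  have := D.finX
  classical
  have hgeo := exists_geo φ hs
  choose geo hgeo1 hgeo2 using hgeo
  have hne : ∀ y : D.X, ∃ p : List A × List A, p ∈ D.C y := fun y => D.ne y
  choose cd hcd using hne
  -- the finite set of values of the pieces `a`
  let G : Set M := Set.range fun y : D.X => pr φ (cd y).1
  have hG : G.Finite := Set.finite_range _
  let F2 : Set M := ⋃ m ∈ F, ⋃ i ∈ Set.Iic (geo m).length, Set.range fun y : D.X =>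
    pr φ ((geo m).take i) * pr φ (cd y).2
  have hF2 : F2.Finite := hF.biUnion fun m _ => (Set.finite_Iic _).biUnion fun i _ =>
    Set.finite_range _
  let F0 : Set M := {m : M | ∃ g ∈ G, m * g ∈ F2}
  have hF0 : F0.Finite := finite_rdiv hF2 hG
  let F' : Set M := Set.image2 (fun p q => p * q) F0 {m : M | nrm φ m ≤ Dp}
  have hF' : F'.Finite := hF0.image2 _ (finite_ball φ hs Dp)
  refine ⟨hF'.toFinset.card, fun Top Low hgood hTop => ?_⟩
  have key : ∀ T₁ T₂ : List (Blk A), Top = T₁ ++ T₂ → pr φ (bw T₂) ∈ F' := by
    intro T₁ T₂ hT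
    have hmem : (bw T₂ ++ bw T₁, geo (pr φ (bw Top))) ∈ D.C D.top := by
      rw [D.hC, hgeo1, hT, bw_append]
    obtain ⟨y, a, b₁, b₂, c, v₁, v₂, h1, h2, h3, h4, h5, h6⟩ := D.uside _ _ _ _ hmem
    have ha : pr φ a ∈ F0 := by
      refine ⟨pr φ (cd y).1, ⟨y, rfl⟩, ?_⟩
      have := h4 (cd y).1 (cd y).2 (hcd y)
      rw [D.hC, pr_append, pr_append] at this
      rw [this]
      simp only [F2, Set.mem_iUnion, Set.mem_range, Set.mem_Iic]
      refine ⟨pr φ (bw Top), hTop, v₁.length, ?_, y, ?_⟩
      · rw [h3]; simp
      · rw [h3]; simp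
    have hb : b₁.length ≤ Dp := by
      rcases h6 with ⟨h6, _⟩ | ⟨h6, h7, h8⟩
      · simp [h6]
      · refine hK T₁ (T₂ ++ Low) (bw Low ++ a) b₁ b₂ c ?_ ?_ h2 h6 h7 h8
        · rw [← List.append_assoc, ← hT]; exact hgood
        · rw [bw_append, h1, List.append_assoc]
    refine ⟨pr φ a, ha, pr φ b₁, (nrm_le φ b₁).trans hb, ?_⟩
    rw [h1, pr_append]
  have hcard : (Finset.Icc 1 Top.length).card ≤ hF'.toFinset.card := by
    apply Finset.card_le_card_of_injOn (fun i => pr φ (bw (Top.drop (Top.length - i))))
    · intro i hi
      simp only [Set.Finite.coe_toFinset]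
      exact key (Top.take (Top.length - i)) _ (List.take_append_drop _ _).symm
    · have main : ∀ i j : ℕ, 1 ≤ i → i < j → j ≤ Top.length →
          pr φ (bw (Top.drop (Top.length - i))) ≠ pr φ (bw (Top.drop (Top.length - j))) := by
        intro i j hi hij hj heq
        have hsplit : Top.drop (Top.length - j) =
            (Top.drop (Top.length - j)).take (j - i) ++ Top.drop (Top.length - i) := by
          conv_lhs => rw [← List.take_append_drop (j - i) (Top.drop (Top.length - j))]
          rw [List.drop_drop]
          congr 2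
          omega
        rw [hsplit, bw_append, pr_append] at heq
        have h1 : pr φ (bw ((Top.drop (Top.length - j)).take (j - i))) = 1 := by
          have := heq
          exact (mul_eq_left.mp this.symm)
        refine seg_ne_one φ (ρ := ρ) ((Top.drop (Top.length - j)).take (j - i))
          (Top.drop (Top.length - i) ++ Low) ?_ ?_ ?_ h1
        · intro h
          have := congrArg List.length h
          simp at this
          omega
        · intro h
          have := congrArg List.length h
          simp at this
          omega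
        · rw [← List.append_assoc, ← hsplit]
          apply good_drop φ (Top.take (Top.length - j))
          rw [← List.append_assoc, List.take_append_drop]
          exact hgood
      intro i hi j hj hij
      simp only [Finset.coe_Icc, Set.mem_Icc] at hi hj
      rcases lt_trichotomy i j with h | h | h
      · exact absurd hij (main i j hi.1 h hj.2)
      · exact h
      · exact absurd hij.symm (main j i hj.1 h hi.2)
  simpa using hcard

end Pool.Agent.W589.WP399
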